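import Pool.Agent.H7.Gtu.Res
import Pool.Agent.H7.Bir.Iso
import Pool.Agent.H23.Omega
import Pool.Agent.H23.Forms

/-!
# Gtu Main: varieties of general type and algebraic extensions of function fields

`isGT_of_hom`: let `K` and `L` be function fields of the same transcendence degree `k` over `ℂ`, and let `e : K →ₐ[ℂ] L` be a homomorphism.  If `K` is
of general type then so is `L`.
-/

set_option autoImplicit false

open Pool.Agent.H23.Fano (Form Diff ExtPow regularForms PrimeDivisorOver)
open Pool.Agent.H17LG.Variety (PoleAtMost IsLogGeneralType)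
open Pool.Agent.H7.Bir (closure_mk)

noncomputable section

namespace Pool.Agent.H7.Gtu

section Div

variable {K L : Type} [Field K] [Field L] [Algebra K L]

/-- A valuation of an algebraic extension of `K` which is not trivial is not trivial on `K`. -/
theorem exists_neg [Algebra.IsAlgebraic K L] (v : AddValuation L (WithTop ℤ)) {t : L} (ht : v t = 1) :
    ∃ x : K, v (algebraMap K L x) < 0 := by
  by_contra hcon
  push Not at hcon
  have ht0 : t ≠ 0 := by
    rintro rfl
    rw [v.map_zero] at ht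
    exact absurd ht (by simp)
  have hi : IsIntegral K t⁻¹ := (Algebra.IsAlgebraic.isAlgebraic (R := K) t⁻¹).isIntegral
  obtain ⟨p, hp, hp0⟩ := hi
  have hinv : v t⁻¹ = ((-1 : ℤ) : WithTop ℤ) := by
    have h1 : v t + v t⁻¹ = 0 := by rw [← v.map_mul, mul_inv_cancel₀ ht0, v.map_one]
    rw [ht] at h1
    obtain ⟨m, hm⟩ : ∃ m : ℤ, v t⁻¹ = m := by
      have h2 := (v.ne_top_iff).2 (inv_ne_zero ht0)
      exact ⟨(v t⁻¹).untop h2, by simp⟩
    rw [hm] at h1 ⊢
    have h3 : (1 : ℤ) + m = 0 := by exact_mod_cast h1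
    have h4 : m = -1 := by omega
    rw [h4]
  have hpow : ∀ n : ℕ, v (t⁻¹ ^ n) = ((-n : ℤ) : WithTop ℤ) := by
    intro n
    induction n with
    | zero => simp
    | succ n ih =>
      rw [pow_succ, v.map_mul, ih, hinv, ← WithTop.coe_add]
      congr 1
      push_cast
      ring
  have hsum : t⁻¹ ^ p.natDegree = -∑ i ∈ Finset.range p.natDegree, algebraMap K L (p.coeff i) * t⁻¹ ^ i := by
    rw [Polynomial.eval₂_eq_sum_range, Finset.sum_range_succ, hp.coeff_natDegree, map_one, one_mul] at hp0
    linear_combination hp0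
  have h1 : ((-p.natDegree + 1 : ℤ) : WithTop ℤ) ≤ v (∑ i ∈ Finset.range p.natDegree, algebraMap K L (p.coeff i) * t⁻¹ ^ i) := by
    refine v.map_le_sum fun i hi => ?_
    rw [v.map_mul, hpow]
    have h2 := hcon (p.coeff i)
    have h3 : ((-p.natDegree + 1 : ℤ) : WithTop ℤ) ≤ ((-i : ℤ) : WithTop ℤ) := by
      have h4 := Finset.mem_range.1 hi
      exact_mod_cast (by omega : (-p.natDegree + 1 : ℤ) ≤ -i)
    exact h3.trans (le_add_of_nonneg_left h2)
  have h2 := hpow p.natDegree
  rw [hsum, v.map_neg] at h2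
  rw [h2] at h1
  have h3 : (-p.natDegree + 1 : ℤ) ≤ -p.natDegree := by exact_mod_cast h1
  omega

/-- A nontrivial valuation can be normalised. -/
theorem exists_normalised (v : AddValuation K (WithTop ℤ)) (hneg : ∃ f : K, v f < 0) :
    ∃ (w : AddValuation K (WithTop ℤ)) (e : ℕ), 0 < e ∧ (∃ t : K, w t = 1) ∧
      ∀ f : K, f ≠ 0 → ∃ n : ℤ, w f = n ∧ v f = ((e * n : ℤ) : WithTop ℤ) := by
  classical
  -- integer values
  have hex : ∀ f : K, f ≠ 0 → ∃ n : ℤ, v f = (n : WithTop ℤ) := by
    intro f hf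
    have h : v f ≠ ⊤ := by
      intro h
      exact hf (v.top_iff.mp h)
    exact ⟨(v f).untop h, (WithTop.coe_untop _ _).symm⟩
  choose! val hval using hex
  have hval_mul : ∀ f g : K, f ≠ 0 → g ≠ 0 → val (f * g) = val f + val g := by
    intro f g hf hg
    have h := v.map_mul f g
    rw [hval f hf, hval g hg, hval (f * g) (mul_ne_zero hf hg)] at h
    exact_mod_cast h
  have hval_one : val 1 = 0 := by
    have h := v.map_one
    rw [hval 1 one_ne_zero] at h
    exact_mod_cast h
  have hval_inv : ∀ f : K, f ≠ 0 → val f⁻¹ = - val f := by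
    intro f hf
    have h := hval_mul f f⁻¹ hf (inv_ne_zero hf)
    rw [mul_inv_cancel₀ hf, hval_one] at h
    omega
  have hval_pow : ∀ (f : K) (n : ℕ), f ≠ 0 → val (f ^ n) = n * val f := by
    intro f n hf
    induction n with
    | zero => simp [hval_one]
    | succ n ih =>
      rw [pow_succ, hval_mul _ _ (pow_ne_zero n hf) hf, ih]
      push_cast
      ring
  have hval_zpow : ∀ (f : K) (n : ℤ), f ≠ 0 → val (f ^ n) = n * val f := by
    intro f n hf
    obtain ⟨m, rfl | rfl⟩ := n.eq_nat_or_neg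
    · rw [zpow_natCast, hval_pow f m hf]
    · rw [zpow_neg, zpow_natCast, hval_inv _ (pow_ne_zero m hf), hval_pow f m hf]
      ring
  -- minimal positive value
  have hpos : ∃ n : ℕ, 0 < n ∧ ∃ t : K, t ≠ 0 ∧ val t = n := by
    obtain ⟨f, hf⟩ := hneg
    have hf0 : f ≠ 0 := by
      rintro rfl
      simp at hf
    have h1 : val f < 0 := by
      have h := hval f hf0
      rw [h] at hf
      exact_mod_cast hf
    refine ⟨(-val f).toNat, by omega, f⁻¹, inv_ne_zero hf0, ?_⟩
    rw [hval_inv f hf0]
    omega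
  set e := Nat.find hpos with he
  obtain ⟨he0, t, ht0, htv⟩ := Nat.find_spec hpos
  rw [← he] at he0 htv
  have hmin : ∀ (n : ℕ) (f : K), 0 < n → f ≠ 0 → val f = n → e ≤ n :=
    fun n f hn hf h => Nat.find_min' hpos ⟨hn, f, hf, h⟩
  have heZ : (0 : ℤ) < e := by exact_mod_cast he0
  have hdvd : ∀ f : K, f ≠ 0 → val f = e * (val f / e) := by
    intro f hf
    have h1 : val (f * t ^ (-(val f / e))) = val f - (val f / e) * e := by
      rw [hval_mul _ _ hf (zpow_ne_zero _ ht0), hval_zpow t _ ht0, htv]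
      ring
    have h2 : val f - (val f / e) * e = val f % e := by
      have := Int.emod_add_mul_ediv (val f) e
      linarith
    have h3 : 0 ≤ val f % e := Int.emod_nonneg _ (ne_of_gt heZ)
    have h4 : val f % e < e := Int.emod_lt_of_pos _ heZ
    rcases h3.eq_or_lt with h5 | h5
    · have := Int.emod_add_mul_ediv (val f) e
      omega
    · exfalso
      have h6 := hmin (val f % e).toNat (f * t ^ (-(val f / e))) (by omega)
        (mul_ne_zero hf (zpow_ne_zero _ ht0)) (by rw [h1, h2]; omega)
      omega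
  set w : K → WithTop ℤ := fun f => if f = 0 then ⊤ else ((val f / e : ℤ) : WithTop ℤ) with hw
  have hw0 : w 0 = ⊤ := by simp [hw]
  have hwn : ∀ f : K, f ≠ 0 → w f = ((val f / e : ℤ) : WithTop ℤ) := by
    intro f hf
    simp [hw, hf]
  let ord : AddValuation K (WithTop ℤ) := AddValuation.of w hw0
    (by rw [hwn 1 one_ne_zero, hval_one]; simp)
    (by
      intro f g
      by_cases hf : f = 0
      · subst hf
        rw [zero_add, hw0]
        simp
      by_cases hg : g = 0
      · subst hg
        rw [add_zero, hw0]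
        simp
      by_cases hfg : f + g = 0
      · rw [hfg, hw0]
        exact le_top
      have h := v.map_add f g
      rw [hval f hf, hval g hg, hval (f + g) hfg] at h
      rw [hwn f hf, hwn g hg, hwn _ hfg]
      have h' : min (val f) (val g) ≤ val (f + g) := by exact_mod_cast h
      have : min (val f / e) (val g / e) ≤ val (f + g) / e := by
        rcases min_le_iff.mp h' with h4 | h4
        · exact le_trans (min_le_left _ _) (Int.ediv_le_ediv heZ h4)
        · exact le_trans (min_le_right _ _) (Int.ediv_le_ediv heZ h4)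
      exact_mod_cast this)
    (by
      intro f g
      by_cases hf : f = 0
      · subst hf
        rw [zero_mul, hw0]
        simp
      by_cases hg : g = 0
      · subst hg
        rw [mul_zero, hw0]
        simp
      rw [hwn _ (mul_ne_zero hf hg), hwn f hf, hwn g hg, hval_mul f g hf hg]
      have h1 := hdvd f hf
      have h2 : (val f + val g) / (e : ℤ) = val f / e + val g / e := by
        rw [Int.add_ediv_of_dvd_left ⟨_, h1⟩]
      rw [h2]
      push_cast
      rfl)
  have hord : ∀ f, ord f = w f := fun f => rfl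
  refine ⟨ord, e, he0, ⟨t, ?_⟩, fun f hf => ⟨val f / e, ?_, ?_⟩⟩
  · rw [hord, hwn t ht0, htv, Int.ediv_self (ne_of_gt heZ)]
    rfl
  · rw [hord, hwn f hf]
  · rw [hval f hf, ← hdvd f hf]

end Div

section Main

variable {K L : Type} [Field K] [Algebra ℂ K] [Field L] [Algebra ℂ L] [Algebra K L] [IsScalarTower ℂ K L]

/-- The prime divisor of `K` under a prime divisor of an algebraic extension. -/
theorem exists_under [Algebra.IsAlgebraic K L] {k : ℕ} (E : PrimeDivisorOver L k) : ∃ (D : PrimeDivisorOver K k) (e : ℕ), 0 < e ∧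
    ∀ f : K, f ≠ 0 → ∃ n : ℤ, D.ord f = n ∧ E.ord (algebraMap K L f) = ((e * n : ℤ) : WithTop ℤ) := by
  obtain ⟨t, ht⟩ := E.exists_uniformizer
  obtain ⟨w, e, he, hu, hw⟩ := exists_normalised (vcom K E.ord) (exists_neg E.ord ht)
  obtain ⟨s, hs, hp⟩ := exists_residue (K := K) E.ord E.ord_const E.residue_trdeg
  have heZ : (0 : ℤ) < e := by exact_mod_cast he
  have hnn : ∀ f : K, 0 ≤ E.ord (algebraMap K L f) → 0 ≤ w f := by
    intro f hf
    by_cases hf0 : f = 0
    · rw [hf0, w.map_zero]
      exact le_top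
    · obtain ⟨n, hn, hn'⟩ := hw f hf0
      rw [vcom_apply] at hn'
      rw [hn'] at hf
      rw [hn]
      have h1 : (0 : ℤ) ≤ e * n := by exact_mod_cast hf
      have h2 : (0 : ℤ) ≤ n := nonneg_of_mul_nonneg_right h1 heZ
      exact_mod_cast h2
  refine ⟨⟨w, fun c => hnn _ (vcom_const E.ord_const c), hu, s, fun i => hnn _ (hs i), fun p hp0 => ?_⟩, e, he, hw⟩
  have h1 := hp p hp0
  have h2 : MvPolynomial.aeval s p ≠ 0 := by
    intro h3
    rw [h3, map_zero, E.ord.map_zero] at h1
    exact WithTop.top_ne_zero h1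
  obtain ⟨n, hn, hn'⟩ := hw _ h2
  rw [vcom_apply, h1] at hn'
  rw [hn]
  have h3 : (0 : ℤ) = e * n := by exact_mod_cast hn'
  have h4 : n = 0 := by
    rcases mul_eq_zero.1 h3.symm with h5 | h5
    · omega
    · exact h5
  rw [h4]
  rfl

/-- The map of rational forms. -/
theorem exists_formMap (k : ℕ) : ∃ Φ : Form K k →+ Form L k, (∀ (c : K) ω, Φ (c • ω) = algebraMap K L c • Φ ω) ∧
    ∀ (c : K) a, Φ (Form.mk c a) = Form.mk (algebraMap K L c) fun i => algebraMap K L (a i) := by
  let D : Ω[K⁄ℂ] →ₗ[K] Ω[L⁄ℂ] := KaehlerDifferential.map ℂ ℂ K L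
  let _ : Module K (⋀[L]^k Ω[L⁄ℂ]) := Module.compHom _ (algebraMap K L)
  have hD : ∀ (c : K) (x : Ω[K⁄ℂ]), D (c • x) = algebraMap K L c • D x := by
    intro c x
    rw [map_smul]
    exact algebra_compatible_smul L c (D x)
  have hup : ∀ [DecidableEq (Fin k)] (v : Fin k → Ω[K⁄ℂ]) (i : Fin k) (t : Ω[K⁄ℂ]),
      (fun j => D (Function.update v i t j)) = Function.update (fun j => D (v j)) i (D t) := by
    intro _ v i t
    funext j
    by_cases hj : j = i
    · subst hj
      simp
    · simp [Function.update_of_ne hj]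
  let A : Ω[K⁄ℂ] [⋀^Fin k]→ₗ[K] (⋀[L]^k Ω[L⁄ℂ]) :=
    { toFun := fun v => exteriorPower.ιMulti L k fun i => D (v i)
      map_update_add' := by
        intro _ v i x y
        rw [hup, hup, hup, map_add, (exteriorPower.ιMulti L k).map_update_add]
      map_update_smul' := by
        intro _ v i c x
        rw [hup, hup, hD, (exteriorPower.ιMulti L k).map_update_smul]
        rfl
      map_eq_zero_of_eq' := by
        intro v i j h hij
        exact (exteriorPower.ιMulti L k).map_eq_zero_of_eq _ (by simp only [h]) hij }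
  let F : (⋀[K]^k Ω[K⁄ℂ]) →ₗ[K] (⋀[L]^k Ω[L⁄ℂ]) := exteriorPower.alternatingMapLinearEquiv A
  refine ⟨F.toAddMonoidHom, fun c ω => ?_, fun c a => ?_⟩
  · exact F.map_smul c ω
  · have h1 : F (c • exteriorPower.ιMulti K k fun i => KaehlerDifferential.D ℂ K (a i)) =
        algebraMap K L c • exteriorPower.ιMulti L k fun i => D (KaehlerDifferential.D ℂ K (a i)) := by
      rw [F.map_smul]
      change algebraMap K L c • F _ = _
      congr 1
      exact exteriorPower.alternatingMapLinearEquiv_apply_ιMulti A _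
    have h2 : ∀ x : K, D (KaehlerDifferential.D ℂ K x) = KaehlerDifferential.D ℂ L (algebraMap K L x) :=
      fun x => KaehlerDifferential.map_D ℂ ℂ K L x
    simp only [h2] at h1
    exact h1

omit [IsScalarTower ℂ K L] in
theorem formMap_regular {k : ℕ} {Φ : Form K k →+ Form L k}
    (hΦ : ∀ (c : K) a, Φ (Form.mk c a) = Form.mk (algebraMap K L c) fun i => algebraMap K L (a i)) {A : Set K} {B : Set L}
    (hAB : ∀ x ∈ A, algebraMap K L x ∈ B) {η : Form K k} (hη : η ∈ regularForms k A) : Φ η ∈ regularForms k B := by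
  unfold regularForms at hη ⊢
  induction hη using AddSubgroup.closure_induction with
  | mem x hx =>
    obtain ⟨c, a, hc, ha, rfl⟩ := hx
    rw [hΦ]
    exact AddSubgroup.subset_closure ⟨_, _, hAB c hc, fun i => hAB _ (ha i), rfl⟩
  | zero =>
    rw [map_zero]
    exact zero_mem _
  | add x y _ _ hx hy =>
    rw [map_add]
    exact add_mem hx hy
  | neg x _ hx =>
    rw [map_neg]
    exact neg_mem hx

theorem formMap_ne_zero [Algebra.IsAlgebraic K L] {k : ℕ} {z : Fin k → K} (hz : IsTranscendenceBasis ℂ z) {Φ : Form K k →+ Form L k}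
    (hsm : ∀ (c : K) ω, Φ (c • ω) = algebraMap K L c • Φ ω)
    (hΦ : ∀ (c : K) a, Φ (Form.mk c a) = Form.mk (algebraMap K L c) fun i => algebraMap K L (a i)) {ω : Form K k} (hω : ω ≠ 0) :
    Φ ω ≠ 0 := by
  obtain ⟨b, hb⟩ := Pool.Agent.H23.exists_basis_kaehler hz
  have hz' : IsTranscendenceBasis ℂ (algebraMap K L ∘ z) := hz.algebraMap_comp
  obtain ⟨b', hb'⟩ := Pool.Agent.H23.exists_basis_kaehler hz'
  have h1 : ω = Pool.Agent.H23.fc b (ω : ⋀[K]^k Ω[K⁄ℂ]) • (Form.mk 1 z : Form K k) := by
    have h2 := Pool.Agent.H23.eq_fc_smul b (ω : ⋀[K]^k Ω[K⁄ℂ])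
    have h3 : (Form.mk 1 z : Form K k) = exteriorPower.ιMulti K k (fun i => b i) := by
      change (1 : K) • exteriorPower.ιMulti K k (fun i => KaehlerDifferential.D ℂ K (z i)) = _
      rw [one_smul]
      simp only [hb]
    rw [h3]
    exact h2
  have h4 : Pool.Agent.H23.fc b (ω : ⋀[K]^k Ω[K⁄ℂ]) ≠ 0 := by
    intro h5
    rw [h5, zero_smul] at h1
    exact hω h1
  rw [h1, hsm, hΦ, map_one]
  intro h6
  rcases smul_eq_zero.1 h6 with h7 | h7
  · exact h4 ((map_eq_zero_iff _ (algebraMap K L).injective).1 h7)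
  · have h8 : Pool.Agent.H23.fc b' (exteriorPower.ιMulti L k (fun i => b' i)) = 1 := Pool.Agent.H23.fc_self b'
    have h9 : exteriorPower.ιMulti L k (fun i => b' i) = 0 := by
      have h10 : (Form.mk 1 (fun i => algebraMap K L (z i)) : Form L k) = exteriorPower.ιMulti L k (fun i => b' i) := by
        change (1 : L) • exteriorPower.ιMulti L k (fun i => KaehlerDifferential.D ℂ L (algebraMap K L (z i))) = _
        rw [one_smul]
        simp only [hb', Function.comp_apply]
      rw [← h10]
      exact h7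
    rw [h9, map_zero] at h8
    exact zero_ne_one h8

/-- The case of an algebraic extension. -/
theorem isGT_of_algebraic [Algebra.IsAlgebraic K L] {k : ℕ} (hK : ∃ z : Fin k → K, IsTranscendenceBasis ℂ z)
    (h : IsLogGeneralType (K := K) (k := k) fun _ => False) : IsLogGeneralType (K := L) (k := k) fun _ => False := by
  obtain ⟨z, hz⟩ := hK
  obtain ⟨Φ, hsm, hmk⟩ := exists_formMap (K := K) (L := L) k
  obtain ⟨m, hm, ω, hω, r, f, hf0, hf, halg⟩ := h
  refine ⟨m, hm, Φ ω, formMap_ne_zero hz hsm hmk hω, r, fun i => algebraMap K L (f i), ?_, ?_, ?_⟩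
  · intro h0
    exact hf0 ((map_eq_zero_iff _ (algebraMap K L).injective).1 h0)
  · intro i E
    refine ⟨fun _ => ?_, fun h => h.elim⟩
    obtain ⟨D, e, he, hD⟩ := exists_under (K := K) E
    have heZ : (0 : ℤ) ≤ e := by positivity
    have hnn : ∀ x : K, 0 ≤ D.ord x → 0 ≤ E.ord (algebraMap K L x) := by
      intro x hx
      by_cases hx0 : x = 0
      · rw [hx0, map_zero, E.ord.map_zero]
        exact le_top
      · obtain ⟨n, hn, hn'⟩ := hD x hx0
        rw [hn']
        rw [hn] at hx
        have h1 : (0 : ℤ) ≤ n := by exact_mod_cast hx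
        have h2 : (0 : ℤ) ≤ e * n := mul_nonneg heZ h1
        exact_mod_cast h2
    obtain ⟨g, η, hη, hωg, hord⟩ := (hf i D).1 not_false
    refine ⟨algebraMap K L g, Φ η, formMap_regular hmk hnn hη, ?_, ?_⟩
    · rw [hωg, hsm]
    · have h1 : algebraMap K L (f i) * algebraMap K L g ^ m = algebraMap K L (f i * g ^ m) := by
        rw [map_mul, map_pow]
      rw [h1]
      have h2 : (0 : WithTop ℤ) ≤ D.ord (f i * g ^ m) := by simpa using hord
      simpa using hnn _ h2
  · have hsub : ∀ x : K, x ∈ IntermediateField.adjoin ℂ (Set.range fun i => f i / f 0) →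
        algebraMap K L x ∈ IntermediateField.adjoin ℂ (Set.range fun i => algebraMap K L (f i) / algebraMap K L (f 0)) := by
      intro x hx
      have h1 : algebraMap K L x ∈ (IntermediateField.adjoin ℂ (Set.range fun i => f i / f 0)).map (IsScalarTower.toAlgHom ℂ K L) :=
        ⟨x, hx, rfl⟩
      rw [IntermediateField.adjoin_map] at h1
      refine IntermediateField.adjoin.mono _ _ _ ?_ h1
      rintro _ ⟨_, ⟨i, rfl⟩, rfl⟩
      exact ⟨i, (map_div₀ (algebraMap K L) (f i) (f 0)).symm⟩
    let φ : IntermediateField.adjoin ℂ (Set.range fun i => f i / f 0) →+*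
        IntermediateField.adjoin ℂ (Set.range fun i => algebraMap K L (f i) / algebraMap K L (f 0)) :=
      { toFun := fun x => ⟨algebraMap K L x, hsub x x.2⟩
        map_one' := Subtype.ext (map_one (algebraMap K L))
        map_mul' := fun x y => Subtype.ext (map_mul (algebraMap K L) _ _)
        map_zero' := Subtype.ext (map_zero (algebraMap K L))
        map_add' := fun x y => Subtype.ext (map_add (algebraMap K L) _ _) }
    have hL : Algebra.IsAlgebraic (IntermediateField.adjoin ℂ (Set.range fun i => f i / f 0)) L :=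
      Algebra.IsAlgebraic.trans _ K _
    refine ⟨fun y => ?_⟩
    exact (hL.isAlgebraic y).ringHom_of_comp_eq φ (RingHom.id L) φ.injective (by
      ext x
      rfl)

end Main

/-- **General type goes up to algebraic extensions.** -/
theorem isGT_of_hom {K L : Type} [Field K] [Algebra ℂ K] [Field L] [Algebra ℂ L] (e : K →ₐ[ℂ] L) {k : ℕ}
    (hK : ∃ z : Fin k → K, IsTranscendenceBasis ℂ z) (hL : ∃ z : Fin k → L, IsTranscendenceBasis ℂ z)
    (h : IsLogGeneralType (K := K) (k := k) fun _ => False) : IsLogGeneralType (K := L) (k := k) fun _ => False := by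
  let _ : Algebra K L := e.toRingHom.toAlgebra
  have _ : IsScalarTower ℂ K L := IsScalarTower.of_algebraMap_eq fun c => (e.commutes c).symm
  have _ : Algebra.IsAlgebraic K L := by
    obtain ⟨z, hz⟩ := hK
    obtain ⟨z', hz'⟩ := hL
    have h1 : AlgebraicIndependent ℂ (fun i => e (z i)) := hz.1.map' e.toRingHom.injective
    have h2 : Algebra.trdeg ℂ L ≤ Cardinal.mk (Fin k) := by
      have h3 := hz'.lift_cardinalMk_eq_trdeg
      simp only [Cardinal.lift_id] at h3
      exact h3.symm.le
    have h3 : IsTranscendenceBasis ℂ (fun i => e (z i)) := h1.isTranscendenceBasis_of_trdeg_le_of_finite h2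
    have h4 := h3.isAlgebraic
    refine ⟨fun y => ?_⟩
    have h5 : Algebra.adjoin ℂ (Set.range fun i => e (z i)) ≤ e.range := by
      rw [Algebra.adjoin_le_iff]
      rintro _ ⟨i, rfl⟩
      exact ⟨z i, rfl⟩
    let ε : K ≃ₐ[ℂ] e.range := AlgEquiv.ofInjective e e.toRingHom.injective
    have hε : ∀ x : e.range, e (ε.symm x) = (x : L) := by
      intro x
      have h6 : (ε (ε.symm x) : L) = x := by rw [ε.apply_symm_apply]
      exact h6
    let ψ : Algebra.adjoin ℂ (Set.range fun i => e (z i)) →ₐ[ℂ] K := (ε.symm : e.range →ₐ[ℂ] K).comp (Subalgebra.inclusion h5)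
    have hψ : ∀ x, e (ψ x) = (x : L) := fun x => hε (Subalgebra.inclusion h5 x)
    refine (h4.isAlgebraic y).ringHom_of_comp_eq (ψ : _ →+* K) (RingHom.id L) ?_ ?_
    · intro x x' hxx
      apply Subtype.ext
      rw [← hψ x, ← hψ x']
      exact congrArg e hxx
    · ext x
      exact hψ x
  exact isGT_of_algebraic hK h

end Pool.Agent.H7.Gtu
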