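import Mathlib

/-!
# Gtu Res: residue fields of discrete valuations and algebraic extensions

Let `L` be an algebraic extension of `K`, and let `v` be a valuation of `L` which is nonnegative on `ℂ`.  If there are `n` elements of the valuation
ring of `L` with algebraically independent residue classes, then there are `n` such elements in `K`.
-/

set_option autoImplicit false

open Polynomial

noncomputable section

namespace Pool.Agent.H7.Gtu

variable {K L : Type} [Field K] [Algebra ℂ K] [Field L] [Algebra ℂ L]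

/-- Transcendence degrees of algebraic extensions. -/
theorem exists_indep {κ κ' : Type} [CommRing κ] [IsDomain κ] [CommRing κ'] [IsDomain κ'] [Algebra ℂ κ] [Algebra ℂ κ'] (f : κ →ₐ[ℂ] κ')
    (hf : Function.Injective f) (halg : ∀ y, ∃ q : κ[X], q ≠ 0 ∧ q.eval₂ (f : κ →+* κ') y = 0) {n : ℕ} {s : Fin n → κ'}
    (hs : AlgebraicIndependent ℂ s) : ∃ t : Fin n → κ, AlgebraicIndependent ℂ t := by
  let _ : Algebra κ κ' := f.toRingHom.toAlgebra
  have _ : IsScalarTower ℂ κ κ' := IsScalarTower.of_algebraMap_eq fun c => (f.commutes c).symm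
  have _ : FaithfulSMul κ κ' := (faithfulSMul_iff_algebraMap_injective _ _).2 hf
  have _ : Algebra.IsAlgebraic κ κ' := by
    refine ⟨fun y => ?_⟩
    obtain ⟨q, hq0, hq⟩ := halg y
    exact ⟨q, hq0, hq⟩
  have _ : FaithfulSMul ℂ κ := (faithfulSMul_iff_algebraMap_injective _ _).2 (algebraMap ℂ _).injective
  obtain ⟨ι, x, hx⟩ := exists_isTranscendenceBasis' ℂ κ
  have hx' : IsTranscendenceBasis ℂ (algebraMap κ κ' ∘ x) := hx.algebraMap_comp
  have h1 := hs.lift_cardinalMk_le_trdeg
  have h2 := hx'.lift_cardinalMk_eq_trdeg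
  rw [← h2] at h1
  obtain ⟨φ⟩ := Cardinal.lift_mk_le'.1 h1
  exact ⟨x ∘ φ, hx.1.comp φ φ.injective⟩

/-- The valuation ring. -/
def vring (v : AddValuation L (WithTop ℤ)) (hv : ∀ c : ℂ, 0 ≤ v (algebraMap ℂ L c)) : Subalgebra ℂ L where
  carrier := {x | 0 ≤ v x}
  mul_mem' := by
    intro a b ha hb
    change 0 ≤ v (a * b)
    rw [v.map_mul]
    exact add_nonneg ha hb
  add_mem' := by
    intro a b ha hb
    exact (le_min ha hb).trans (v.map_add a b)
  algebraMap_mem' := hv

/-- The maximal ideal. -/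
def vmax (v : AddValuation L (WithTop ℤ)) (hv : ∀ c : ℂ, 0 ≤ v (algebraMap ℂ L c)) : Ideal (vring v hv) where
  carrier := {x | 0 < v (x : L)}
  add_mem' := by
    intro a b ha hb
    exact (lt_min ha hb).trans_le (v.map_add a b)
  zero_mem' := by
    change 0 < v (0 : L)
    rw [v.map_zero]
    exact WithTop.coe_lt_top 0
  smul_mem' := by
    intro c x hx
    change 0 < v ((c : L) * x)
    rw [v.map_mul]
    exact lt_of_lt_of_le hx (le_add_of_nonneg_left c.2)

instance vmax_isPrime (v : AddValuation L (WithTop ℤ)) (hv : ∀ c : ℂ, 0 ≤ v (algebraMap ℂ L c)) : (vmax v hv).IsPrime where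
  ne_top' := by
    rw [Ideal.ne_top_iff_one]
    intro h
    have h1 : 0 < v (1 : L) := h
    rw [v.map_one] at h1
    exact lt_irrefl _ h1
  mem_or_mem' := by
    intro x y hxy
    have h1 : 0 < v ((x : L) * y) := hxy
    rw [v.map_mul] at h1
    by_contra hcon
    push Not at hcon
    have h2 : v (x : L) = 0 := le_antisymm (not_lt.1 hcon.1) x.2
    have h3 : v (y : L) = 0 := le_antisymm (not_lt.1 hcon.2) y.2
    rw [h2, h3, add_zero] at h1
    exact lt_irrefl _ h1

/-- The residue field. -/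
abbrev vres (v : AddValuation L (WithTop ℤ)) (hv : ∀ c : ℂ, 0 ≤ v (algebraMap ℂ L c)) : Type := vring v hv ⧸ vmax v hv

section Ext

variable [Algebra K L] [IsScalarTower ℂ K L]

/-- The restriction of the valuation. -/
def vcom (K : Type) [Field K] [Algebra K L] (v : AddValuation L (WithTop ℤ)) : AddValuation K (WithTop ℤ) := v.comap (algebraMap K L)

omit [Algebra ℂ K] [Algebra ℂ L] [IsScalarTower ℂ K L] in
theorem vcom_apply (v : AddValuation L (WithTop ℤ)) (x : K) : vcom K v x = v (algebraMap K L x) := rfl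

theorem vcom_const {v : AddValuation L (WithTop ℤ)} (hv : ∀ c : ℂ, 0 ≤ v (algebraMap ℂ L c)) (c : ℂ) :
    0 ≤ vcom K v (algebraMap ℂ K c) := by
  rw [vcom_apply, ← IsScalarTower.algebraMap_apply]
  exact hv c

/-- The map of the valuation rings. -/
def vmap (v : AddValuation L (WithTop ℤ)) (hv : ∀ c : ℂ, 0 ≤ v (algebraMap ℂ L c)) :
    vring (vcom K v) (vcom_const hv) →ₐ[ℂ] vring v hv where
  toFun x := ⟨algebraMap K L x, x.2⟩
  map_one' := Subtype.ext (map_one (algebraMap K L))
  map_mul' _ _ := Subtype.ext (map_mul (algebraMap K L) _ _)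
  map_zero' := Subtype.ext (map_zero (algebraMap K L))
  map_add' _ _ := Subtype.ext (map_add (algebraMap K L) _ _)
  commutes' c := Subtype.ext (IsScalarTower.algebraMap_apply ℂ K L c).symm

/-- The map of the residue fields. -/
def rmap (v : AddValuation L (WithTop ℤ)) (hv : ∀ c : ℂ, 0 ≤ v (algebraMap ℂ L c)) :
    vres (vcom K v) (vcom_const hv) →ₐ[ℂ] vres v hv :=
  Ideal.quotientMapₐ (vmax v hv) (vmap v hv) fun _ hx => hx

theorem rmap_mk (v : AddValuation L (WithTop ℤ)) (hv : ∀ c : ℂ, 0 ≤ v (algebraMap ℂ L c)) (x : vring (vcom K v) (vcom_const hv)) :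
    rmap (K := K) v hv (Ideal.Quotient.mk _ x) = Ideal.Quotient.mk _ (vmap v hv x) := rfl

theorem rmap_injective (v : AddValuation L (WithTop ℤ)) (hv : ∀ c : ℂ, 0 ≤ v (algebraMap ℂ L c)) :
    Function.Injective (rmap (K := K) v hv) := by
  rw [injective_iff_map_eq_zero]
  intro x hx
  obtain ⟨x, rfl⟩ := Ideal.Quotient.mk_surjective x
  rw [rmap_mk, Ideal.Quotient.eq_zero_iff_mem] at hx
  rw [Ideal.Quotient.eq_zero_iff_mem]
  exact hx

/-- The extension of the residue fields is algebraic. -/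
theorem rmap_algebraic [Algebra.IsAlgebraic K L] (v : AddValuation L (WithTop ℤ)) (hv : ∀ c : ℂ, 0 ≤ v (algebraMap ℂ L c)) (y : vres v hv) :
    ∃ q : (vres (vcom K v) (vcom_const hv))[X], q ≠ 0 ∧ q.eval₂ (rmap (K := K) v hv : vres (vcom K v) (vcom_const hv) →+* vres v hv) y = 0 := by
  obtain ⟨x, rfl⟩ := Ideal.Quotient.mk_surjective y
  obtain ⟨p, hp0, hp⟩ := Algebra.IsAlgebraic.isAlgebraic (R := K) (x : L)
  obtain ⟨i, hi, hmin⟩ := Finset.exists_min_image p.support (fun i => vcom K v (p.coeff i)) (Polynomial.support_nonempty.2 hp0)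
  have hc0 : p.coeff i ≠ 0 := Polynomial.mem_support_iff.1 hi
  have hq : C (p.coeff i)⁻¹ * p ∈ Polynomial.lifts (algebraMap (vring (vcom K v) (vcom_const hv)) K) := by
    rw [Polynomial.lifts_iff_coeff_lifts]
    intro n
    rw [Polynomial.coeff_C_mul]
    have h1 : 0 ≤ vcom K v ((p.coeff i)⁻¹ * p.coeff n) := by
      by_cases hn : p.coeff n = 0
      · rw [hn, mul_zero, AddValuation.map_zero]
        exact le_top
      · have h2 := hmin n (Polynomial.mem_support_iff.2 hn)
        have h3 : vcom K v (p.coeff i) + vcom K v ((p.coeff i)⁻¹ * p.coeff n) = vcom K v (p.coeff n) := by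
          rw [← AddValuation.map_mul, mul_inv_cancel_left₀ hc0]
        rw [← h3] at h2
        have h4 : vcom K v (p.coeff i) ≠ ⊤ := (AddValuation.ne_top_iff _).2 hc0
        have h5 : vcom K v (p.coeff i) + 0 ≤ vcom K v (p.coeff i) + vcom K v ((p.coeff i)⁻¹ * p.coeff n) := by rwa [add_zero]
        exact (WithTop.add_le_add_iff_left h4).1 h5
    exact ⟨⟨_, h1⟩, rfl⟩
  obtain ⟨Q, hQ⟩ := (Polynomial.mem_lifts _).1 hq
  refine ⟨Q.map (Ideal.Quotient.mk _), ?_, ?_⟩
  · intro h0
    have h1 : (Q.map (Ideal.Quotient.mk (vmax (vcom K v) (vcom_const hv)))).coeff i = 0 := by rw [h0, Polynomial.coeff_zero]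
    have h2 : (Q.coeff i : K) = 1 := by
      have h3 : (Q.map (algebraMap (vring (vcom K v) (vcom_const hv)) K)).coeff i = (C (p.coeff i)⁻¹ * p).coeff i := by rw [hQ]
      rw [Polynomial.coeff_map, Polynomial.coeff_C_mul, inv_mul_cancel₀ hc0] at h3
      exact h3
    have h4 : Q.coeff i = 1 := Subtype.ext h2
    rw [Polynomial.coeff_map, h4, map_one] at h1
    exact one_ne_zero h1
  · rw [Polynomial.eval₂_map]
    have h1 : (rmap (K := K) v hv : vres (vcom K v) (vcom_const hv) →+* vres v hv).comp (Ideal.Quotient.mk _) =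
        (Ideal.Quotient.mk (vmax v hv)).comp (vmap (K := K) v hv : _ →+* vring v hv) := rfl
    rw [h1, ← Polynomial.hom_eval₂]
    have h2 : Q.eval₂ (vmap (K := K) v hv : vring (vcom K v) (vcom_const hv) →+* vring v hv) x = 0 := by
      apply Subtype.ext
      have h3 : ((Q.eval₂ (vmap (K := K) v hv : vring (vcom K v) (vcom_const hv) →+* vring v hv) x : vring v hv) : L) =
          Q.eval₂ ((algebraMap K L).comp (algebraMap (vring (vcom K v) (vcom_const hv)) K)) (x : L) :=
        Polynomial.hom_eval₂ Q (vmap (K := K) v hv : vring (vcom K v) (vcom_const hv) →+* vring v hv) (algebraMap (vring v hv) L) x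
      rw [h3, ← Polynomial.eval₂_map, hQ, Polynomial.eval₂_mul]
      have h4 : p.eval₂ (algebraMap K L) (x : L) = 0 := hp
      rw [h4, mul_zero]
      rfl
    rw [h2, map_zero]

/-- **Residual independence goes down.** -/
theorem exists_residue [Algebra.IsAlgebraic K L] (v : AddValuation L (WithTop ℤ)) (hv : ∀ c : ℂ, 0 ≤ v (algebraMap ℂ L c)) {n : ℕ}
    (h : ∃ s : Fin n → L, (∀ i, 0 ≤ v (s i)) ∧ ∀ p : MvPolynomial (Fin n) ℂ, p ≠ 0 → v (MvPolynomial.aeval s p) = 0) :
    ∃ s : Fin n → K, (∀ i, 0 ≤ v (algebraMap K L (s i))) ∧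
      ∀ p : MvPolynomial (Fin n) ℂ, p ≠ 0 → v (algebraMap K L (MvPolynomial.aeval s p)) = 0 := by
  obtain ⟨s, hs, hp⟩ := h
  -- the residue classes of the given elements
  have hs' : AlgebraicIndependent ℂ (fun i => (Ideal.Quotient.mk (vmax v hv) (⟨s i, hs i⟩ : vring v hv))) := by
    rw [algebraicIndependent_iff]
    intro p hp0
    by_contra hne
    have h1 : MvPolynomial.aeval (fun i => (Ideal.Quotient.mk (vmax v hv) (⟨s i, hs i⟩ : vring v hv))) p =
        Ideal.Quotient.mk (vmax v hv) (MvPolynomial.aeval (fun i => (⟨s i, hs i⟩ : vring v hv)) p) := by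
      have h2 := MvPolynomial.comp_aeval (fun i => (⟨s i, hs i⟩ : vring v hv)) (Ideal.Quotient.mkₐ ℂ (vmax v hv))
      exact (DFunLike.congr_fun h2 p).symm
    rw [h1, Ideal.Quotient.eq_zero_iff_mem] at hp0
    have h3 : ((MvPolynomial.aeval (fun i => (⟨s i, hs i⟩ : vring v hv)) p : vring v hv) : L) = MvPolynomial.aeval s p := by
      have h2 := MvPolynomial.comp_aeval (fun i => (⟨s i, hs i⟩ : vring v hv)) (vring v hv).val
      exact DFunLike.congr_fun h2 p
    have h4 : 0 < v ((MvPolynomial.aeval (fun i => (⟨s i, hs i⟩ : vring v hv)) p : vring v hv) : L) := hp0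
    rw [h3, hp p hne] at h4
    exact lt_irrefl _ h4
  obtain ⟨x, h3⟩ := exists_indep (rmap (K := K) v hv) (rmap_injective v hv) (rmap_algebraic (K := K) v hv) hs'
  choose y hy using fun i => Ideal.Quotient.mk_surjective (x i)
  refine ⟨fun i => (y i : K), fun i => (y i).2, fun p hp0 => ?_⟩
  have h4 : Ideal.Quotient.mk (vmax (vcom K v) (vcom_const hv)) (MvPolynomial.aeval y p) ≠ 0 := by
    have h5 := MvPolynomial.comp_aeval y (Ideal.Quotient.mkₐ ℂ (vmax (vcom K v) (vcom_const hv)))
    have h6 : Ideal.Quotient.mk (vmax (vcom K v) (vcom_const hv)) (MvPolynomial.aeval y p) =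
        MvPolynomial.aeval (fun i => Ideal.Quotient.mkₐ ℂ (vmax (vcom K v) (vcom_const hv)) (y i)) p := DFunLike.congr_fun h5 p
    have h7 : (fun i => Ideal.Quotient.mkₐ ℂ (vmax (vcom K v) (vcom_const hv)) (y i)) = x := funext hy
    rw [h6, h7]
    intro h8
    exact hp0 ((algebraicIndependent_iff.1 h3) p h8)
  have h5 : ((MvPolynomial.aeval y p : vring (vcom K v) (vcom_const hv)) : K) = MvPolynomial.aeval (fun i => (y i : K)) p := by
    have h2 := MvPolynomial.comp_aeval y (vring (vcom K v) (vcom_const hv)).val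
    exact DFunLike.congr_fun h2 p
  rw [← h5]
  refine le_antisymm (not_lt.1 fun h6 => h4 ?_) (MvPolynomial.aeval y p : vring (vcom K v) (vcom_const hv)).2
  rw [Ideal.Quotient.eq_zero_iff_mem]
  exact h6

end Ext

end Pool.Agent.H7.Gtu
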